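import Pool.Agent.helper48.SG.SpecH

/-! sg:H03 -/

set_option autoImplicit false

open MeasureTheory Set Metric Filter Topology
open scoped ENNReal NNReal ComplexConjugate

namespace Pool.Agent.SG

theorem H03_kk {Γ : Type} [Group Γ] (A : DiscRep Γ) (x : Γ) : 0 ≤ A.kk x := by
  unfold DiscRep.kk DiscRep.pt DiscRep.act mob
  rw [mul_zero, mul_zero, zero_add, zero_add, norm_div, RCLike.norm_conj, div_pow]
  have h := A.norm_eq x
  have ha : 0 < ‖A.a x‖ ^ 2 := by nlinarith [norm_nonneg (A.b x)]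
  have h1 : ‖A.b x‖ ^ 2 / ‖A.a x‖ ^ 2 ≤ 1 := by
    rw [div_le_one ha]
    linarith
  linarith

theorem H03_real (ε : ℝ) (h0 : 0 ≤ ε) (h1 : ε ≤ 1 / 4) :
    (1 + ε) ^ 4 ≤ (1 + 30 * ε) * (1 - ε) ^ 4 := by
  have h2 : (1 + 30 * ε) * (1 - ε) ^ 4 - (1 + ε) ^ 4 =
      ε * ((22 - 120 * ε + 172 * ε ^ 2 - 120 * ε ^ 3) + 30 * ε ^ 4) := by ring
  have e2 : 0 ≤ ε ^ 2 := by positivity
  have h3 : 0 ≤ (22 - 120 * ε + 172 * ε ^ 2 - 120 * ε ^ 3) + 30 * ε ^ 4 := by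
    nlinarith [mul_nonneg e2 (sub_nonneg.2 h1), sq_nonneg (ε - 1 / 4), sq_nonneg (ε ^ 2),
      mul_nonneg h0 (sub_nonneg.2 h1)]
  have h4 := mul_nonneg h0 h3
  linarith

theorem H03 (h2 : H02_stmt) : H03_stmt := by
  intro Γ _ A u c s x y E E' hu hc hsc hx hy hE hE' hEf hEf'
  have hs0 : 0 ≤ s := le_trans (by unfold DiscRep.Hu; positivity) hx
  obtain ⟨ε, hε⟩ : ∃ ε : ℝ, ε = 2 * s / c := ⟨_, rfl⟩
  have hε0 : 0 ≤ ε := by rw [hε]; positivity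
  have hε1 : ε ≤ 1 / 4 := by
    rw [hε, div_le_iff₀ hc]
    linarith
  have hkx := H03_kk A x
  have hky := H03_kk A y
  have a1 := (h2 Γ A u c s x E hu hc hsc hx hE hEf).1
  have a2 := (h2 Γ A u c s y E' hu hc hsc hy hE' hEf').1
  have b1 := (h2 Γ A u c s y E hu hc hsc hy hE hEf).2.1
  have b2 := (h2 Γ A u c s x E' hu hc hsc hx hE' hEf').2.1
  rw [← hε] at a1 a2 b1 b2
  have hγ : 1 + 60 * s / c = 1 + 30 * ε := by
    rw [hε]
    ring
  have hd1 : 0 < 1 - ε := by linarith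
  have hd2 : 0 < 1 + ε := by linarith
  have hreal : A.kk x / (1 - ε) ^ 2 * (A.kk y / (1 - ε) ^ 2) ≤
      (1 + 30 * ε) * (A.kk y / (1 + ε) ^ 2 * (A.kk x / (1 + ε) ^ 2)) := by
    have e1 : A.kk x / (1 - ε) ^ 2 * (A.kk y / (1 - ε) ^ 2) =
        (A.kk x * A.kk y) / (1 - ε) ^ 4 := by
      field_simp
    have e2 : (1 + 30 * ε) * (A.kk y / (1 + ε) ^ 2 * (A.kk x / (1 + ε) ^ 2)) =
        ((1 + 30 * ε) * (A.kk x * A.kk y)) / (1 + ε) ^ 4 := by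
      field_simp
    rw [e1, e2, div_le_div_iff₀ (by positivity) (by positivity)]
    have e3 := mul_le_mul_of_nonneg_left (H03_real ε hε0 hε1) (mul_nonneg hkx hky)
    calc A.kk x * A.kk y * (1 + ε) ^ 4 ≤ A.kk x * A.kk y * ((1 + 30 * ε) * (1 - ε) ^ 4) := e3
      _ = _ := by ring
  calc lax A x E * lax A y E'
      ≤ (ENNReal.ofReal (A.kk x / (1 - ε) ^ 2) * sg u E) *
        (ENNReal.ofReal (A.kk y / (1 - ε) ^ 2) * sg u E') := mul_le_mul' a1 a2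
    _ = ENNReal.ofReal (A.kk x / (1 - ε) ^ 2 * (A.kk y / (1 - ε) ^ 2)) * (sg u E * sg u E') := by
      rw [ENNReal.ofReal_mul (by positivity)]
      ring
    _ ≤ ENNReal.ofReal ((1 + 30 * ε) * (A.kk y / (1 + ε) ^ 2 * (A.kk x / (1 + ε) ^ 2))) *
        (sg u E * sg u E') := by
      gcongr
    _ = ENNReal.ofReal (1 + 30 * ε) * ((ENNReal.ofReal (A.kk y / (1 + ε) ^ 2) * sg u E) *
        (ENNReal.ofReal (A.kk x / (1 + ε) ^ 2) * sg u E')) := by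
      rw [ENNReal.ofReal_mul (by positivity), ENNReal.ofReal_mul (by positivity)]
      ring
    _ ≤ ENNReal.ofReal (1 + 30 * ε) * (lax A y E * lax A x E') := by
      gcongr
    _ = _ := by rw [hγ]

end Pool.Agent.SG
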