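import Pool.Agent.helper56.SG.SpecG

/-! sg:EQI -/

set_option autoImplicit false

open MeasureTheory Set Metric Filter Topology
open scoped ENNReal NNReal ComplexConjugate
open Pool.Agent.SG

noncomputable section

namespace Pool.Agent.SGG

theorem EQI_comp (hM : MOB_stmt) (a b : ℂ) (hab : IsoM a b) (u : ℂ → ℝ) (hu : CB u) :
    CB (fun y => u (mob a b y)) := by
  obtain ⟨-, -, h3, -, -, h6, -, -, -⟩ := hM a b hab
  unfold CB at hu ⊢
  exact hu.comp (fun z hz => (h6 z hz).continuousAt.continuousWithinAt) h3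

theorem EQI_equi (hA : ACT_stmt) (hM : MOB_stmt) (hE : KEQ_stmt) (hL : KLI_stmt)
    (Γ : Type) [Group Γ] (A : DiscRep Γ) (φ : Γ → ℝ) (u : ℂ → ℝ) (t : ℝ) (ht0 : 0 < t)
    (ht1 : t < 1) (hu : CB u) (he : Equi A φ u) : Equi A φ (KK t u) := by
  intro γ z hz
  have hiso := ((hA Γ A z hz).1 γ).1
  have hc : CB (fun _ : ℂ => φ γ) := continuousOn_const
  have hcu : CB (fun y => u y + φ γ) := ContinuousOn.add hu continuousOn_const
  have e1 : KK t u (A.act γ z) = KK t (fun y => u (mob (A.a γ) (A.b γ) y)) z :=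
    hE t ht0 ht1 (A.a γ) (A.b γ) hiso u hu z hz
  have e2 : KK t (fun y => u (mob (A.a γ) (A.b γ) y)) z = KK t (fun y => u y + φ γ) z :=
    ((hL t ht0 ht1 z hz).2.1 _ _ (EQI_comp hM _ _ hiso u hu) hcu).2.2.2 fun y hy => he γ y hy
  have e3 : KK t (fun y => u y + φ γ) z = KK t u z + KK t (fun _ => φ γ) z :=
    ((hL t ht0 ht1 z hz).2.1 u (fun _ => φ γ) hu hc).1
  rw [e1, e2, e3, (hL t ht0 ht1 z hz).1]

theorem EQI (hA : ACT_stmt) (hM : MOB_stmt) (hE : KEQ_stmt) (hL : KLI_stmt) : EQI_stmt := by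
  intro Γ _ A
  refine ⟨?_, ?_, ?_⟩
  · intro φ u t ht0 ht1 hu he
    exact EQI_equi hA hM hE hL Γ A φ u t ht0 ht1 hu he
  · intro v t ht0 ht1 hv hi
    have h1 : Equi A (fun _ => 0) v := by
      intro γ z hz
      rw [hi γ z hz, add_zero]
    have h2 := EQI_equi hA hM hE hL Γ A (fun _ => 0) v t ht0 ht1 hv h1
    intro γ z hz
    have h3 := h2 γ z hz
    rwa [add_zero] at h3
  · rintro ⟨r, hr1, hr⟩ v hv hi
    have hsub : closedBall (0 : ℂ) r ⊆ ball (0 : ℂ) 1 := closedBall_subset_ball hr1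
    have hK : IsCompact (closedBall (0 : ℂ) r) := isCompact_closedBall 0 r
    obtain ⟨B, hB⟩ := hK.exists_bound_of_continuousOn (hv.mono hsub)
    have hb : ∀ x ∈ ball (0 : ℂ) 1, |v x| ≤ |B| := by
      intro x hx
      obtain ⟨γ, hγ⟩ := hr x (by simpa using hx)
      have h1 : A.act γ x ∈ closedBall (0 : ℂ) r := by simpa using hγ
      have h2 := hB _ h1
      rw [hi γ x hx, Real.norm_eq_abs] at h2
      exact h2.trans (le_abs_self B)
    refine ⟨2 * |B|, by positivity, ?_⟩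
    intro x hx y hy
    have h1 := abs_le.1 (hb x hx)
    have h2 := abs_le.1 (hb y hy)
    linarith

end Pool.Agent.SGG
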