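import Pool.Agent.helper68.SG.SpecK

/-! sg:K05 -/

set_option autoImplicit false

open MeasureTheory Set Metric Filter Topology
open scoped ENNReal NNReal ComplexConjugate

namespace Pool.Agent.SG

theorem K05_nsq (a b z : ℂ) (h : ‖a‖ ^ 2 - ‖b‖ ^ 2 = 1) :
    ‖conj b * z + conj a‖ ^ 2 - ‖a * z + b‖ ^ 2 = 1 - ‖z‖ ^ 2 := by
  rw [← Complex.normSq_eq_norm_sq, ← Complex.normSq_eq_norm_sq] at h ⊢
  rw [← Complex.normSq_eq_norm_sq]
  simp only [Complex.normSq_apply, Complex.add_re, Complex.add_im, Complex.mul_re, Complex.mul_im,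
    Complex.conj_re, Complex.conj_im] at h ⊢
  linear_combination (1 - (z.re * z.re + z.im * z.im)) * h

theorem K05_diff (a b z w : ℂ) (h : ‖a‖ ^ 2 - ‖b‖ ^ 2 = 1) (hz : conj b * z + conj a ≠ 0)
    (hw : conj b * w + conj a ≠ 0) :
    mob a b z - mob a b w = (z - w) / ((conj b * z + conj a) * (conj b * w + conj a)) := by
  have h1 : a * conj a - b * conj b = 1 := by
    rw [Complex.mul_conj, Complex.mul_conj, Complex.normSq_eq_norm_sq, Complex.normSq_eq_norm_sq]
    exact_mod_cast h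
  unfold mob
  rw [div_sub_div _ _ hz hw]
  congr 1
  linear_combination (z - w) * h1

theorem K05 : K05_stmt := by
  intro a b h
  have hb0 := norm_nonneg b
  have ha0 := norm_nonneg a
  have hab : ‖b‖ < ‖a‖ := by nlinarith
  have ht1 : 1 ≤ ‖a‖ + ‖b‖ := by nlinarith
  obtain ⟨t, ht⟩ : ∃ t : ℝ, t = ‖a‖ + ‖b‖ := ⟨_, rfl⟩
  rw [← ht] at ht1
  have ht0 : 0 < t := by linarith
  have hinv : ‖a‖ - ‖b‖ = 1 / t := by
    rw [eq_div_iff ht0.ne', ht]
    nlinarith
  have hqlow : ∀ z : ℂ, ‖z‖ ≤ 1 → 1 / t ≤ ‖conj b * z + conj a‖ := by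
    intro z hz
    have e1 : ‖conj a‖ ≤ ‖conj b * z + conj a‖ + ‖conj b * z‖ := by
      have := norm_sub_le (conj b * z + conj a) (conj b * z)
      simpa using this
    have e2 : ‖conj b * z‖ ≤ ‖b‖ := by
      rw [norm_mul, RCLike.norm_conj]
      nlinarith
    rw [RCLike.norm_conj] at e1
    rw [← hinv]
    linarith
  have hqup : ∀ z : ℂ, ‖z‖ ≤ 1 → ‖conj b * z + conj a‖ ≤ t := by
    intro z hz
    have e1 := norm_add_le (conj b * z) (conj a)
    rw [norm_mul, RCLike.norm_conj, RCLike.norm_conj] at e1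
    rw [ht]
    nlinarith
  have hqpos : ∀ z : ℂ, ‖z‖ ≤ 1 → 0 < ‖conj b * z + conj a‖ := fun z hz =>
    lt_of_lt_of_le (by positivity) (hqlow z hz)
  have hsq : ∀ z : ℂ, conj b * z + conj a ≠ 0 →
      1 - ‖mob a b z‖ ^ 2 = (1 - ‖z‖ ^ 2) / ‖conj b * z + conj a‖ ^ 2 := by
    intro z hz
    have hz' : ‖conj b * z + conj a‖ ^ 2 ≠ 0 := pow_ne_zero 2 (norm_ne_zero_iff.2 hz)
    unfold mob
    rw [norm_div, div_pow, eq_div_iff hz', ← K05_nsq a b z h, sub_mul, one_mul, div_mul_cancel₀ _ hz']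
  have hle1 : ∀ z : ℂ, ‖z‖ ≤ 1 → ‖mob a b z‖ ≤ 1 := by
    intro z hz
    have e1 := hsq z (norm_pos_iff.1 (hqpos z hz))
    have e2 : 0 ≤ (1 - ‖z‖ ^ 2) / ‖conj b * z + conj a‖ ^ 2 := by
      apply div_nonneg _ (by positivity)
      nlinarith [norm_nonneg z]
    have e3 := norm_nonneg (mob a b z)
    nlinarith
  have hlt1 : ∀ z : ℂ, ‖z‖ < 1 → ‖mob a b z‖ < 1 := by
    intro z hz
    have e0 := hqpos z hz.le
    have e1 := hsq z (norm_pos_iff.1 e0)
    have e2 : 0 < (1 - ‖z‖ ^ 2) / ‖conj b * z + conj a‖ ^ 2 := by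
      apply div_pos _ (by positivity)
      nlinarith [norm_nonneg z]
    have e3 := norm_nonneg (mob a b z)
    nlinarith
  refine ⟨1 / (2 * t ^ 2), t ^ 2 + 1, by positivity, ?_, by positivity, ?_, ?_, ?_, ?_⟩
  · rw [div_le_one (by positivity)]
    nlinarith
  · intro z hz
    refine ⟨hle1 z hz, ?_⟩
    have e0 := hqpos z hz
    have e1 := hsq z (norm_pos_iff.1 e0)
    have e2 := hle1 z hz
    have e3 := norm_nonneg (mob a b z)
    have e4 : 1 - ‖mob a b z‖ ^ 2 ≤ 2 * (1 - ‖mob a b z‖) := by nlinarith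
    have e5 : (1 - ‖z‖) / t ^ 2 ≤ (1 - ‖z‖ ^ 2) / ‖conj b * z + conj a‖ ^ 2 := by
      have hz0 := norm_nonneg z
      apply div_le_div₀
      · nlinarith
      · nlinarith
      · positivity
      · exact pow_le_pow_left₀ e0.le (hqup z hz) 2
    have e6 : 1 / (2 * t ^ 2) * (1 - ‖z‖) = (1 - ‖z‖) / t ^ 2 / 2 := by
      field_simp
    rw [e6]
    linarith
  · intro z hz
    have e1 := hsq z (norm_pos_iff.1 (hqpos z hz.le))
    rw [hz] at e1
    have e3 := norm_nonneg (mob a b z)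
    have e4 : ‖mob a b z‖ ^ 2 = 1 := by
      norm_num at e1
      linarith
    nlinarith
  · intro r z hr0 hr1 hz
    have hrz : ‖(r : ℂ) * z‖ ≤ 1 := by
      rw [norm_mul, Complex.norm_real, Real.norm_of_nonneg hr0.le]
      nlinarith [norm_nonneg z]
    have e1 := hqpos z hz
    have e2 := hqpos (r * z) hrz
    have e3 : mob a b (r * z) - r * mob a b z =
        (mob a b (r * z) - mob a b z) + (1 - r : ℝ) * mob a b z := by
      push_cast
      ring
    have e4 : ‖mob a b (r * z) - mob a b z‖ ≤ t ^ 2 * (1 - r) := by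
      rw [K05_diff a b _ _ h (norm_pos_iff.1 e2) (norm_pos_iff.1 e1), norm_div, norm_mul,
        div_le_iff₀ (mul_pos e2 e1)]
      have f1 : ‖(r : ℂ) * z - z‖ ≤ 1 - r := by
        have : (r : ℂ) * z - z = -(((1 - r : ℝ) : ℂ) * z) := by
          push_cast
          ring
        rw [this, norm_neg, norm_mul, Complex.norm_real, Real.norm_of_nonneg (by linarith)]
        nlinarith [norm_nonneg z]
      have f2 : (1 / t) * (1 / t) ≤ ‖conj b * (r * z) + conj a‖ * ‖conj b * z + conj a‖ :=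
        mul_le_mul (hqlow _ hrz) (hqlow _ hz) (by positivity) e2.le
      have f3 : t ^ 2 * ((1 / t) * (1 / t)) = 1 := by
        field_simp
      have f4 : 1 ≤ t ^ 2 * (‖conj b * (r * z) + conj a‖ * ‖conj b * z + conj a‖) := by
        rw [← f3]
        exact mul_le_mul_of_nonneg_left f2 (by positivity)
      calc ‖(r : ℂ) * z - z‖ ≤ 1 - r := f1
        _ = 1 * (1 - r) := (one_mul _).symm
        _ ≤ t ^ 2 * (‖conj b * (r * z) + conj a‖ * ‖conj b * z + conj a‖) * (1 - r) :=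
          mul_le_mul_of_nonneg_right f4 (by linarith)
        _ = t ^ 2 * (1 - r) * (‖conj b * (r * z) + conj a‖ * ‖conj b * z + conj a‖) := by ring
    have e5 : ‖((1 - r : ℝ) : ℂ) * mob a b z‖ ≤ 1 - r := by
      rw [norm_mul, Complex.norm_real, Real.norm_of_nonneg (by linarith)]
      nlinarith [hle1 z hz, norm_nonneg (mob a b z)]
    rw [e3]
    refine (norm_add_le _ _).trans ?_
    linarith
  · intro r hr0 hr1
    have hd : 0 < ‖a‖ - ‖b‖ := by linarith
    have ev1 : ∀ᶠ R : ℝ in 𝓝 1, R < 1 / r := by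
      apply Iio_mem_nhds
      rw [lt_div_iff₀ hr0]
      linarith
    have ev2 : ∀ᶠ R : ℝ in 𝓝 1, 0 < ‖a‖ - ‖b‖ * R := by
      have hc : ContinuousAt (fun R : ℝ => ‖a‖ - ‖b‖ * R) 1 := by fun_prop
      have hc' := hc.eventually (lt_mem_nhds (a := (0 : ℝ)) (by simpa using hd))
      exact hc'
    have ev3 : ∀ᶠ R : ℝ in 𝓝 1, 0 < (1 - r ^ 2) * (‖a‖ - ‖b‖ * R) ^ 2 - r ^ 2 * (R ^ 2 - 1) := by
      have hc : ContinuousAt
          (fun R : ℝ => (1 - r ^ 2) * (‖a‖ - ‖b‖ * R) ^ 2 - r ^ 2 * (R ^ 2 - 1)) 1 := by fun_prop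
      have h0 : 0 < (1 - r ^ 2) * (‖a‖ - ‖b‖) ^ 2 := by
        apply mul_pos _ (by positivity)
        nlinarith
      have hc' := hc.eventually (lt_mem_nhds (a := (0 : ℝ)) (by simpa using h0))
      exact hc'
    obtain ⟨R, ⟨hR1, hR2, hR3⟩, hR⟩ := (((ev1.and (ev2.and ev3)).filter_mono
      (nhdsWithin_le_nhds (s := Ioi (1 : ℝ)))).and self_mem_nhdsWithin).exists
    have hR' : (1 : ℝ) < R := hR
    have hlow : ∀ z ∈ ball (0 : ℂ) R, ‖a‖ - ‖b‖ * R ≤ ‖conj b * z + conj a‖ := by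
      intro z hz
      rw [mem_ball_zero_iff] at hz
      have e1 : ‖conj a‖ ≤ ‖conj b * z + conj a‖ + ‖conj b * z‖ := by
        have := norm_sub_le (conj b * z + conj a) (conj b * z)
        simpa using this
      have e2 : ‖conj b * z‖ ≤ ‖b‖ * R := by
        rw [norm_mul, RCLike.norm_conj]
        exact mul_le_mul_of_nonneg_left hz.le hb0
      rw [RCLike.norm_conj] at e1
      linarith
    have hne : ∀ z ∈ ball (0 : ℂ) R, conj b * z + conj a ≠ 0 := fun z hz =>
      norm_pos_iff.1 (lt_of_lt_of_le hR2 (hlow z hz))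
    have hrz : ∀ z ∈ ball (0 : ℂ) R, ‖(r : ℂ) * z‖ < 1 := by
      intro z hz
      rw [mem_ball_zero_iff] at hz
      rw [norm_mul, Complex.norm_real, Real.norm_of_nonneg hr0.le]
      have : r * (1 / r) = 1 := by field_simp
      nlinarith
    refine ⟨R, hR', ?_, ?_, ?_⟩
    · intro z hz
      unfold mob
      have h1 : conj b * (r * z) + conj a ≠ 0 := norm_pos_iff.1 (hqpos _ (hrz z hz).le)
      apply DifferentiableAt.differentiableWithinAt
      exact DifferentiableAt.div (by fun_prop) (by fun_prop) h1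
    · intro z hz
      unfold mob
      have h1 : conj b * z + conj a ≠ 0 := hne z hz
      apply DifferentiableAt.differentiableWithinAt
      exact (differentiableAt_const _).mul (DifferentiableAt.div (by fun_prop) (by fun_prop) h1)
    · intro z hz
      refine ⟨hlt1 _ (hrz z hz), ?_⟩
      have h1 := hne z hz
      have h2 := hlow z hz
      have h3 : 0 < ‖conj b * z + conj a‖ := norm_pos_iff.2 h1
      have h4 := K05_nsq a b z h
      have hz' : ‖z‖ < R := by rwa [mem_ball_zero_iff] at hz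
      have h5 : ‖z‖ ^ 2 ≤ R ^ 2 := pow_le_pow_left₀ (norm_nonneg z) hz'.le 2
      have h6 : (‖a‖ - ‖b‖ * R) ^ 2 ≤ ‖conj b * z + conj a‖ ^ 2 :=
        pow_le_pow_left₀ hR2.le h2 2
      have hr2 : 0 < 1 - r ^ 2 := by nlinarith
      have h7 : r ^ 2 * ‖a * z + b‖ ^ 2 < ‖conj b * z + conj a‖ ^ 2 := by
        have h8 : (1 - r ^ 2) * (‖a‖ - ‖b‖ * R) ^ 2 ≤ (1 - r ^ 2) * ‖conj b * z + conj a‖ ^ 2 :=
          mul_le_mul_of_nonneg_left h6 hr2.le
        have h9 : r ^ 2 * (‖z‖ ^ 2 - 1) ≤ r ^ 2 * (R ^ 2 - 1) :=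
          mul_le_mul_of_nonneg_left (by linarith) (by positivity)
        have h10 : ‖a * z + b‖ ^ 2 = ‖conj b * z + conj a‖ ^ 2 + (‖z‖ ^ 2 - 1) := by linarith
        rw [h10]
        nlinarith
      unfold mob
      rw [norm_mul, norm_div, Complex.norm_real, Real.norm_of_nonneg hr0.le, ← mul_div_assoc,
        div_lt_one h3]
      apply lt_of_pow_lt_pow_left₀ 2 h3.le
      rw [mul_pow]
      exact h7

end Pool.Agent.SG
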