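import Pool.Agent.helper3.SG.SpecS

/-! sg:S04 -/

set_option autoImplicit false

open MeasureTheory Set Metric Filter Topology
open scoped ENNReal NNReal ComplexConjugate commutatorElement

namespace Pool.Agent.SG

theorem S04_dev0 {Γ : Type} [Group Γ] (A : DiscRep Γ) (γ : Γ) (h : A.dev γ = 0) :
    (A.a γ = 1 ∨ A.a γ = -1) ∧ A.b γ = 0 := by
  unfold DiscRep.dev at h
  have h1 : 0 ≤ min ‖A.a γ - 1‖ ‖A.a γ + 1‖ := le_min (norm_nonneg _) (norm_nonneg _)
  have h2 := norm_nonneg (A.b γ)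
  have h3 : min ‖A.a γ - 1‖ ‖A.a γ + 1‖ = 0 := by linarith
  have h4 : ‖A.b γ‖ = 0 := by linarith
  refine ⟨?_, norm_eq_zero.1 h4⟩
  rcases min_choice ‖A.a γ - 1‖ ‖A.a γ + 1‖ with h5 | h5
  · left
    rw [h5] at h3
    exact sub_eq_zero.1 (norm_eq_zero.1 h3)
  · right
    rw [h5] at h3
    exact eq_neg_of_add_eq_zero_left (norm_eq_zero.1 h3)

theorem S04_fix {Γ : Type} [Group Γ] (A : DiscRep Γ) (γ : Γ) (ξ : ℂ) (hξ : ξ ∈ circ)
    (h : A.act γ ξ = ξ) :
    conj (A.b γ) * ξ ^ 2 + (conj (A.a γ) - A.a γ) * ξ - A.b γ = 0 := by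
  unfold DiscRep.act mob at h
  have hξ1 : ‖ξ‖ = 1 := by simpa [circ] using hξ
  have hd : conj (A.b γ) * ξ + conj (A.a γ) ≠ 0 := by
    intro h0
    rw [h0, div_zero] at h
    rw [← h] at hξ1
    simp at hξ1
  rw [div_eq_iff hd] at h
  linear_combination -h

theorem S04 (h1 : S01_stmt) (h2 : S02_stmt) : S04_stmt := by
  intro Γ _ hTF A hD
  have key : ∀ γ, A.dev γ = 0 → γ = 1 := by
    intro γ hγ
    obtain ⟨ha, hb⟩ := S04_dev0 A γ hγ
    have hpow : ∀ n : ℕ, (A.a (γ ^ n) = 1 ∨ A.a (γ ^ n) = -1) ∧ A.b (γ ^ n) = 0 := by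
      intro n
      induction n with
      | zero =>
        rw [pow_zero]
        obtain ⟨ε, hε, h3, h4⟩ := (h1 Γ A).2.1
        refine ⟨?_, h4⟩
        rw [h3]
        exact hε
      | succ n ih =>
        obtain ⟨ε, hε, h3, h4⟩ := (h1 Γ A).1 (γ ^ n) γ
        rw [pow_succ]
        refine ⟨?_, ?_⟩
        · rw [h3, ih.2, zero_mul, add_zero]
          rcases hε with hε | hε <;> rcases ih.1 with h5 | h5 <;> rcases ha with h6 | h6 <;>
            rw [hε, h5, h6] <;> norm_num
        · rw [h4, ih.2, hb]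
          simp
    have hfin := ((h2 Γ A).2.2.2.2.2.2.2.1 hD) 1
    have hmem : ∀ n : ℕ, γ ^ n ∈ {γ | ‖A.a γ‖ ≤ 1} := by
      intro n
      rcases (hpow n).1 with h5 | h5 <;> simp [h5]
    have hninj : ¬ Function.Injective (fun n : ℕ => γ ^ n) := by
      intro hinj
      exact Set.infinite_of_injective_forall_mem hinj hmem hfin
    rw [Function.not_injective_iff] at hninj
    obtain ⟨m, n, hmn, hne⟩ := hninj
    have hmn' : γ ^ m = γ ^ n := hmn
    rcases lt_or_gt_of_ne hne with hlt | hlt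
    · refine hTF γ (n - m) (by omega) ?_
      have h6 : γ ^ m * γ ^ (n - m) = γ ^ m * 1 := by
        rw [← pow_add, mul_one, hmn']
        congr 1
        omega
      exact mul_left_cancel h6
    · refine hTF γ (m - n) (by omega) ?_
      have h6 : γ ^ n * γ ^ (m - n) = γ ^ n * 1 := by
        rw [← pow_add, mul_one, ← hmn']
        congr 1
        omega
      exact mul_left_cancel h6
  refine ⟨key, ?_⟩
  intro γ ξ hξ η hη ζ hζ hne1 hne2 hne3 f1 f2 f3
  have e1 := S04_fix A γ ξ hξ f1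
  have e2 := S04_fix A γ η hη f2
  have e3 := S04_fix A γ ζ hζ f3
  have g1 : conj (A.b γ) * (ξ + η) + (conj (A.a γ) - A.a γ) = 0 := by
    apply mul_left_cancel₀ (sub_ne_zero.2 hne1)
    linear_combination e1 - e2
  have g2 : conj (A.b γ) * (ξ + ζ) + (conj (A.a γ) - A.a γ) = 0 := by
    apply mul_left_cancel₀ (sub_ne_zero.2 hne2)
    linear_combination e1 - e3
  have g3 : conj (A.b γ) = 0 := by
    apply mul_left_cancel₀ (sub_ne_zero.2 hne3)
    linear_combination g1 - g2
  have g4 : A.b γ = 0 := by simpa using g3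
  have g5 : conj (A.a γ) - A.a γ = 0 := by
    rw [g3, zero_mul, zero_add] at g1
    exact g1
  have g6 : (A.a γ).im = 0 := by
    have := congrArg Complex.im g5
    simp at this
    linarith
  have g7 : A.a γ = ((A.a γ).re : ℂ) := by
    apply Complex.ext <;> simp [g6]
  have g8 := A.norm_eq γ
  rw [g4, g7] at g8
  have g9 : (A.a γ).re ^ 2 = 1 := by
    simpa [Complex.norm_real] using g8
  apply key γ
  unfold DiscRep.dev
  rw [g4, norm_zero, add_zero, g7]
  have g10 : (A.a γ).re = 1 ∨ (A.a γ).re = -1 := by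
    have : ((A.a γ).re - 1) * ((A.a γ).re + 1) = 0 := by linear_combination g9
    rcases mul_eq_zero.1 this with h | h
    · left; linarith
    · right; linarith
  rcases g10 with h | h
  · rw [h]; simp
  · rw [h]; simp

end Pool.Agent.SG
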